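import Pool.Agent.H174.GP.StE
import Pool.Agent.H174.GP.StA
import Pool.Agent.H174.GP.StP
import Pool.Agent.H977.GP174.PLs

open MeasureTheory ProbabilityTheory Finset Filter Topology

namespace Pool.Agent.H675.GP174

open Pool.Agent.H174.GP Pool.Agent.H977.GP174

/-- The sum without the first coordinate. -/
noncomputable def C2 (σ : ℝ) (ω : ℕ → ℝ) (B k : ℕ) : ℝ :=
  ∑ j ∈ Finset.Icc 2 B, ((min j k : ℕ) : ℝ) * (geo σ ω j : ℝ)

theorem c2_split (σ : ℝ) (ω : ℕ → ℝ) (L B k : ℕ) (hL1 : 1 ≤ L) (hL : L ≤ B) (hk : k ≤ L) :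
    C2 σ ω B k = C2 σ ω L k + k * ∑ j ∈ Finset.Ioc L B, (geo σ ω j : ℝ) := by
  unfold C2
  have h1 : ∀ n : ℕ, Finset.Icc 2 n = Finset.Ioc 1 n := by
    intro n
    ext j
    simp only [Finset.mem_Icc, Finset.mem_Ioc]
    omega
  rw [h1, h1, ← Finset.sum_Ioc_consecutive _ hL1 hL, Finset.mul_sum]
  have h2 : ∑ j ∈ Finset.Ioc L B, ((min j k : ℕ) : ℝ) * (geo σ ω j : ℝ) =
      ∑ j ∈ Finset.Ioc L B, (k : ℝ) * (geo σ ω j : ℝ) := by
    apply Finset.sum_congr rfl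
    intro j hj
    rw [Finset.mem_Ioc] at hj
    rw [min_eq_right (by omega)]
  rw [h2]

theorem c2_eq (σ : ℝ) (ω : ℕ → ℝ) (B k : ℕ) (hB : 1 ≤ B) (hk : 1 ≤ k) :
    Cg σ ω B k = (geo σ ω 1 : ℝ) + C2 σ ω B k := by
  unfold Cg Cs C2
  have h1 : ∀ n : ℕ, Finset.Icc 2 n = Finset.Ioc 1 n := by
    intro n
    ext j
    simp only [Finset.mem_Icc, Finset.mem_Ioc]
    omega
  have h2 : Finset.Icc 1 B = insert 1 (Finset.Icc 2 B) := by
    ext j
    simp only [Finset.mem_Icc, Finset.mem_insert]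
    omega
  rw [h2, Finset.sum_insert (by simp), min_eq_left hk, Nat.cast_one, one_mul]

theorem c2_meas (h9 : S_Tq) {σ : ℝ} (hσ : 0 < σ) (B k : ℕ) :
    Measurable (fun ω => C2 σ ω B k) := by
  unfold C2
  refine Finset.measurable_sum _ (fun j hj => ?_)
  rw [Finset.mem_Icc] at hj
  have hj0 : (0 : ℝ) < σ * j := mul_pos hσ (by exact_mod_cast (by omega : 0 < j))
  exact ((tq_meas h9 hj0).comp (measurable_pi_apply j)).const_mul _

theorem c2_mono (h9 : S_Tq) {σ : ℝ} (hσ : 0 < σ) (B k : ℕ) {ω ω' : ℕ → ℝ} (h : ω ≤ ω') :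
    C2 σ ω B k ≤ C2 σ ω' B k := by
  unfold C2
  refine Finset.sum_le_sum (fun j hj => ?_)
  rw [Finset.mem_Icc] at hj
  have hj0 : (0 : ℝ) < σ * j := mul_pos hσ (by exact_mod_cast (by omega : 0 < j))
  refine mul_le_mul_of_nonneg_left ?_ (Nat.cast_nonneg _)
  exact Int.cast_le.2 ((h9 _ hj0).2.2.1 (h j))

theorem c2_dep (σ : ℝ) (B k : ℕ) {ω ω' : ℕ → ℝ} (h : ∀ j ∈ Finset.Icc 1 B, ω j = ω' j) :
    C2 σ ω B k = C2 σ ω' B k := by
  unfold C2 geo
  refine Finset.sum_congr rfl (fun j hj => ?_)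
  rw [Finset.mem_Icc] at hj
  rw [h j (Finset.mem_Icc.2 ⟨by omega, hj.2⟩)]

theorem ev2_meas (h9 : S_Tq) {σ : ℝ} (hσ : 0 < σ) (B : ℕ) (X : Finset ℕ) (t : ℕ → ℝ) :
    MeasurableSet {ω : ℕ → ℝ | ∀ k ∈ X, t k ≤ C2 σ ω B k} := by
  have h1 : {ω : ℕ → ℝ | ∀ k ∈ X, t k ≤ C2 σ ω B k} = ⋂ k ∈ X, {ω | t k ≤ C2 σ ω B k} := by
    ext ω
    simp only [Set.mem_ofPred_eq, Set.mem_iInter]
  rw [h1]
  exact Finset.measurableSet_biInter _
    (fun k _ => measurableSet_le measurable_const (c2_meas h9 hσ B k))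

theorem ev2_upper (h9 : S_Tq) {σ : ℝ} (hσ : 0 < σ) (B : ℕ) (X : Finset ℕ) (t : ℕ → ℝ) :
    IsUpperSet {ω : ℕ → ℝ | ∀ k ∈ X, t k ≤ C2 σ ω B k} :=
  fun _ _ h hω k hk => le_trans (hω k hk) (c2_mono h9 hσ B k h)

theorem ev2_dep (σ : ℝ) (B : ℕ) (X : Finset ℕ) (t : ℕ → ℝ) :
    DepOn (Finset.Icc 1 B) {ω : ℕ → ℝ | ∀ k ∈ X, t k ≤ C2 σ ω B k} := by
  intro ω ω' h hω k hk
  rw [← c2_dep σ B k h]
  exact hω k hk

theorem harris4 (h8 : S_harrisN) (I : Finset ℕ) (F0 F1 F2 F3 : Set (ℕ → ℝ))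
    (m0 : MeasurableSet F0) (m1 : MeasurableSet F1) (m2 : MeasurableSet F2) (m3 : MeasurableSet F3)
    (d0 : DepOn I F0) (d1 : DepOn I F1) (d2 : DepOn I F2) (d3 : DepOn I F3)
    (u0 : IsUpperSet F0) (u1 : IsUpperSet F1) (u2 : IsUpperSet F2) (u3 : IsUpperSet F3) :
    PP.real F0 * PP.real F1 * PP.real F2 * PP.real F3 ≤ PP.real (F0 ∩ F1 ∩ F2 ∩ F3) := by
  have h1 := harris3 h8 I F0 F1 F2 m0 m1 m2 d0 d1 d2 u0 u1 u2
  have h2 := harris3 h8 I (F0 ∩ F1 ∩ F2) F3 Set.univ ((m0.inter m1).inter m2) m3 MeasurableSet.univ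
    (fun ω ω' h hω => ⟨⟨d0 ω ω' h hω.1.1, d1 ω ω' h hω.1.2⟩, d2 ω ω' h hω.2⟩) d3
    (fun _ _ _ _ => Set.mem_univ _) ((u0.inter u1).inter u2) u3 isUpperSet_univ
  rw [Set.inter_univ] at h2
  have h3 : PP.real (Set.univ : Set (ℕ → ℝ)) = 1 := by
    simp [Measure.real]
  rw [h3, mul_one] at h2
  exact le_trans (mul_le_mul_of_nonneg_right h1 measureReal_nonneg) h2

/-- the first coordinate is not large -/
theorem x1_tail (h10 : S_Tq) (h11 : S_L3) {σ D : ℝ} (hσ : 0 < σ) (hD : 2 ≤ D) :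
    PP.real {ω | D < |(geo σ ω 1 : ℝ)|} ≤ Real.exp (-(σ * D / 2)) := by
  have h1 : lap.real {x : ℝ | σ * D / 2 ≤ |x|} = Real.exp (-(σ * D / 2)) :=
    h11.2.1 _ (by positivity)
  rw [← h1]
  have h2 : PP.map (fun ω : ℕ → ℝ => ω 1) = lap := by
    unfold PP
    exact Measure.infinitePi_map_eval (fun _ : ℕ => lap) 1
  have hm : MeasurableSet {x : ℝ | σ * D / 2 ≤ |x|} :=
    measurableSet_le measurable_const measurable_norm
  have h3 : lap.real {x : ℝ | σ * D / 2 ≤ |x|} = PP.real {ω : ℕ → ℝ | σ * D / 2 ≤ |ω 1|} := by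
    unfold Measure.real
    rw [← h2, Measure.map_apply (measurable_pi_apply 1) hm]
    rfl
  rw [h3]
  refine measureReal_mono ?_
  intro ω hω
  have h4 : D < |(geo σ ω 1 : ℝ)| := hω
  have h5 := (h10 (σ * (1 : ℕ)) (by simpa using hσ)).2.2.2.2 (ω 1)
  rw [Nat.cast_one, mul_one] at h5
  have h6 : (geo σ ω 1 : ℝ) = (Tq σ (ω 1) : ℝ) := by
    unfold geo
    rw [Nat.cast_one, mul_one]
  rw [h6] at h4
  show σ * D / 2 ≤ |ω 1|
  have h7 : |(Tq σ (ω 1) : ℝ)| ≤ 1 + |ω 1 / σ| := by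
    calc |(Tq σ (ω 1) : ℝ)| = |((Tq σ (ω 1) : ℝ) - ω 1 / σ) + ω 1 / σ| := by ring_nf
      _ ≤ |(Tq σ (ω 1) : ℝ) - ω 1 / σ| + |ω 1 / σ| := abs_add_le _ _
      _ ≤ 1 + |ω 1 / σ| := by linarith
  rw [abs_div, abs_of_pos hσ] at h7
  have h8 : D / 2 ≤ |ω 1| / σ := by linarith
  rw [le_div_iff₀ hσ] at h8
  linarith

theorem f0_lower2 (h4 : S_float) (h5 : S_shiftC) {σ e D q : ℝ} (L x0 : ℕ) (t : ℝ) (hσ : 0 < σ)
    (he0 : 0 < e) (he1 : e ≤ 1) (hL : 1 ≤ L) (hx0 : 1 ≤ x0) (ht : 0 ≤ t)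
    (hcond : σ * (Real.sqrt L * (1 + Real.sqrt L * t)) ≤ e / 8)
    (hD : σ * D ≤ e / 8 * Real.sqrt x0)
    (hq : PP.real {ω | D < |(geo σ ω 1 : ℝ)|} ≤ q) :
    (uu L) ^ (1 + e) * Real.exp (-((4 / e) * ((e / 4) ^ 2 * (1 + Real.log L))))
      - 2 * L * Real.exp (-(t ^ 2 / 2)) - q ≤
      PP.real {ω | ∀ k ∈ Finset.Icc x0 L, (k : ℝ) ≤ C2 σ ω L k} := by
  have hs := h5 e (e / 4) L (Finset.Icc 1 L) (fun _ => 0) he0 he1 (by linarith) le_rfl hL
    (Finset.Subset.refl _)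
  have hf := h4 σ L t hσ hL ht
  have hsub : {ω : ℕ → ℝ | ∀ x ∈ Finset.Icc 1 L, (0 : ℝ) + e / 4 * Real.sqrt x ≤ Ch ω L x} ⊆
      ({ω | ∀ k ∈ Finset.Icc x0 L, (k : ℝ) ≤ C2 σ ω L k} ∪
      {ω | ∃ x ∈ Finset.Icc 1 L, x * Real.sqrt L * t ≤ |Cg σ ω L x - Ch ω L x / σ|}) ∪
      {ω | D < |(geo σ ω 1 : ℝ)|} := by
    intro ω hω
    by_contra hcon
    rw [Set.mem_union, not_or, Set.mem_union, not_or] at hcon
    obtain ⟨⟨hcon1, hcon2⟩, hcon3⟩ := hcon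
    have hgeo : |(geo σ ω 1 : ℝ)| ≤ D := not_lt.1 hcon3
    apply hcon1
    intro k hk
    have hk1 : k ∈ Finset.Icc 1 L := by
      rw [Finset.mem_Icc] at hk ⊢
      omega
    have hkx0 : (x0 : ℝ) ≤ k := by exact_mod_cast (Finset.mem_Icc.1 hk).1
    have h1 : (0 : ℝ) + e / 4 * Real.sqrt k ≤ Ch ω L k := hω k hk1
    have h2 : |Cg σ ω L k - Ch ω L k / σ| < k * Real.sqrt L * t := by
      by_contra h3
      push Not at h3
      exact hcon2 ⟨k, hk1, h3⟩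
    rw [Finset.mem_Icc] at hk1
    have hk0 : (0 : ℝ) ≤ k := Nat.cast_nonneg _
    have hkL : (k : ℝ) ≤ L := by exact_mod_cast hk1.2
    have h3 : Real.sqrt k ≤ Real.sqrt L := Real.sqrt_le_sqrt hkL
    have h4' : Real.sqrt k * Real.sqrt k = k := Real.mul_self_sqrt hk0
    have hsk : 0 ≤ Real.sqrt k := Real.sqrt_nonneg _
    have hsL : 0 ≤ Real.sqrt L := Real.sqrt_nonneg _
    have h5' : (k : ℝ) * (1 + Real.sqrt L * t) + D ≤ Ch ω L k / σ := by
      rw [le_div_iff₀ hσ, add_mul]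
      have hpos : 0 ≤ 1 + Real.sqrt L * t := by positivity
      have hA : (k : ℝ) * (1 + Real.sqrt L * t) * σ ≤ Real.sqrt k * (e / 8) := by
        calc (k : ℝ) * (1 + Real.sqrt L * t) * σ
            = Real.sqrt k * (σ * (Real.sqrt k * (1 + Real.sqrt L * t))) := by
              have h6 : Real.sqrt k * (σ * (Real.sqrt k * (1 + Real.sqrt L * t))) =
                  Real.sqrt k * Real.sqrt k * (σ * (1 + Real.sqrt L * t)) := by ring
              rw [h6, h4']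
              ring
          _ ≤ Real.sqrt k * (σ * (Real.sqrt L * (1 + Real.sqrt L * t))) := by
              apply mul_le_mul_of_nonneg_left _ hsk
              apply mul_le_mul_of_nonneg_left _ hσ.le
              exact mul_le_mul_of_nonneg_right h3 hpos
          _ ≤ Real.sqrt k * (e / 8) := mul_le_mul_of_nonneg_left hcond hsk
      have hB : D * σ ≤ e / 8 * Real.sqrt k := by
        calc D * σ = σ * D := mul_comm _ _
          _ ≤ e / 8 * Real.sqrt x0 := hD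
          _ ≤ e / 8 * Real.sqrt k :=
            mul_le_mul_of_nonneg_left (Real.sqrt_le_sqrt hkx0) (by linarith)
      linarith
    have h6' := (abs_lt.1 h2).1
    have h7' : Cg σ ω L k = (geo σ ω 1 : ℝ) + C2 σ ω L k := c2_eq σ ω L k hL hk1.1
    have h8' := (abs_le.1 hgeo).2
    rw [h7'] at h6'
    linarith
  have hmono : PP.real {ω : ℕ → ℝ | ∀ x ∈ Finset.Icc 1 L, (0 : ℝ) + e / 4 * Real.sqrt x ≤ Ch ω L x} ≤
      PP.real {ω | ∀ k ∈ Finset.Icc x0 L, (k : ℝ) ≤ C2 σ ω L k} + 2 * L * Real.exp (-(t ^ 2 / 2)) + q := by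
    refine le_trans (measureReal_mono hsub) (le_trans (measureReal_union_le _ _) ?_)
    have := measureReal_union_le (μ := PP) {ω | ∀ k ∈ Finset.Icc x0 L, (k : ℝ) ≤ C2 σ ω L k}
      {ω | ∃ x ∈ Finset.Icc 1 L, x * Real.sqrt L * t ≤ |Cg σ ω L x - Ch ω L x / σ|}
    linarith
  have hs' : (uu L) ^ (1 + e) * Real.exp (-((4 / e) * ((e / 4) ^ 2 * (1 + Real.log L)))) ≤
      PP.real {ω : ℕ → ℝ | ∀ x ∈ Finset.Icc 1 L, (0 : ℝ) + e / 4 * Real.sqrt x ≤ Ch ω L x} := hs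
  linarith

theorem f0_half2 (h6 : S_half) (h7 : S_indep) (h9 : S_Tq) {σ : ℝ} (hσ : 0 < σ) (x0 L B : ℕ)
    (hL : 1 ≤ L) (hLB : L ≤ B) :
    PP.real {ω | ∀ k ∈ Finset.Icc x0 L, (k : ℝ) ≤ C2 σ ω L k} * (1 / 2) ≤
      PP.real {ω | ∀ k ∈ Finset.Icc x0 L, (k : ℝ) ≤ C2 σ ω B k} := by
  have hpos : ∀ j ∈ Finset.Ioc L B, (0 : ℝ) < σ * j := by
    intro j hj
    rw [Finset.mem_Ioc] at hj
    exact mul_pos hσ (by exact_mod_cast (by omega : 0 < j))
  have hG := h6 (Finset.Ioc L B) (fun j x => (Tq (σ * j) x : ℝ))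
    (fun j hj => tq_meas h9 (hpos j hj))
    (fun j hj x => by
      rw [(h9 _ (hpos j hj)).2.1 x]
      push_cast
      rfl)
  have hdisj : Disjoint (Finset.Icc 1 L) (Finset.Ioc L B) := by
    rw [Finset.disjoint_left]
    intro j h1 h2
    rw [Finset.mem_Icc] at h1
    rw [Finset.mem_Ioc] at h2
    omega
  have hmG : MeasurableSet {ω : ℕ → ℝ | 0 ≤ ∑ j ∈ Finset.Ioc L B, (Tq (σ * j) (ω j) : ℝ)} := by
    refine measurableSet_le measurable_const (Finset.measurable_sum _ (fun j hj => ?_))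
    exact (tq_meas h9 (hpos j hj)).comp (measurable_pi_apply j)
  have hi := h7 (Finset.Icc 1 L) (Finset.Ioc L B)
    {ω | ∀ k ∈ Finset.Icc x0 L, (k : ℝ) ≤ C2 σ ω L k}
    {ω : ℕ → ℝ | 0 ≤ ∑ j ∈ Finset.Ioc L B, (Tq (σ * j) (ω j) : ℝ)} hdisj
    (ev2_meas h9 hσ L _ _) hmG (ev2_dep σ L _ _) (by
      intro ω ω' h hω
      have h1 : 0 ≤ ∑ j ∈ Finset.Ioc L B, (Tq (σ * j) (ω j) : ℝ) := hω
      have h2 : ∑ j ∈ Finset.Ioc L B, (Tq (σ * j) (ω j) : ℝ) =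
          ∑ j ∈ Finset.Ioc L B, (Tq (σ * j) (ω' j) : ℝ) :=
        Finset.sum_congr rfl (fun j hj => by rw [h j hj])
      rw [h2] at h1
      exact h1)
  have hsub : {ω | ∀ k ∈ Finset.Icc x0 L, (k : ℝ) ≤ C2 σ ω L k} ∩
      {ω : ℕ → ℝ | 0 ≤ ∑ j ∈ Finset.Ioc L B, (Tq (σ * j) (ω j) : ℝ)} ⊆
      {ω | ∀ k ∈ Finset.Icc x0 L, (k : ℝ) ≤ C2 σ ω B k} := by
    rintro ω ⟨h1, h2⟩ k hk
    have h3 : (k : ℝ) ≤ C2 σ ω L k := h1 k hk
    have h4 : 0 ≤ ∑ j ∈ Finset.Ioc L B, (geo σ ω j : ℝ) := h2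
    have h5 : C2 σ ω B k = C2 σ ω L k + k * ∑ j ∈ Finset.Ioc L B, (geo σ ω j : ℝ) :=
      c2_split σ ω L B k hL hLB (Finset.mem_Icc.1 hk).2
    rw [h5]
    have h6 : 0 ≤ (k : ℝ) * ∑ j ∈ Finset.Ioc L B, (geo σ ω j : ℝ) :=
      mul_nonneg (Nat.cast_nonneg _) h4
    linarith
  have h1 := measureReal_mono (μ := PP) hsub
  rw [hi] at h1
  refine le_trans ?_ h1
  exact mul_le_mul_of_nonneg_left hG measureReal_nonneg

theorem ev_pow (k : ℕ) {b : ℝ} (hb : 0 < b) : ∀ᶠ x : ℝ in atTop, x ^ k + 1 ≤ Real.exp (b * x) := by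
  have h1 := (isLittleO_pow_exp_pos_mul_atTop (k := k) hb).bound (show (0 : ℝ) < 1 / 2 by norm_num)
  filter_upwards [h1, ev_exp hb 2, eventually_ge_atTop 0] with x hx hx2 hx0
  rw [Real.norm_of_nonneg (pow_nonneg hx0 k), Real.norm_of_nonneg (Real.exp_pos _).le] at hx
  linarith

theorem tail2_num {M s1 x : ℝ} (hs1 : 0 < s1) (hM : 0 ≤ M) (hx1 : 1 ≤ x)
    (hx2 : 2 * (M + 4) / s1 ≤ x) :
    Real.exp (-(s1 * x ^ 2 / 2)) ≤ 1 / 4 * Real.exp (-(M * x) - 1) ∧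
    Real.exp (-(s1 * x ^ 2 / 2)) ≤ Real.exp (-(1 * x)) := by
  rw [div_le_iff₀ hs1] at hx2
  have h1 : (M + 4) * x ≤ s1 * x ^ 2 / 2 := by nlinarith
  constructor
  · have h2 : Real.exp (-3) ≤ 1 / 4 := by
      rw [Real.exp_neg, inv_le_comm₀ (Real.exp_pos _) (by norm_num)]
      have := Real.add_one_le_exp (3 : ℝ)
      linarith
    calc Real.exp (-(s1 * x ^ 2 / 2)) ≤ Real.exp (-3 + (-(M * x) - 1)) := by
          apply Real.exp_le_exp.2
          nlinarith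
      _ = Real.exp (-3) * Real.exp (-(M * x) - 1) := Real.exp_add _ _
      _ ≤ 1 / 4 * Real.exp (-(M * x) - 1) := mul_le_mul_of_nonneg_right h2 (Real.exp_pos _).le
  · apply Real.exp_le_exp.2
    nlinarith

theorem gp_pls2 (h1 : S_big) (h2 : S_crude2) (_h3 : S_crude) (h4 : S_AdmGeo) (h5 : S_float)
    (h6 : S_shiftC) (h7 : S_half) (h8 : S_indep) (h9 : S_harrisN) (h10 : S_Tq) (h11 : S_L3) :
    Pool.Agent.H174.GP.S_PLs2 := by
  intro θ s1 s2 ε η R hθ0 hθ hs1 hs2 hε hη0 hη1 hR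
  obtain ⟨cv, hcv, Cv, hCv, κ, hκ, hAdm⟩ := h4 s2 hs2
  have hsη : 0 < Real.sqrt (η / 2) := Real.sqrt_pos.2 (by linarith)
  obtain ⟨c1, hc1, L0, hbig⟩ :=
    h1 cv Cv κ ((R + 1) * s2 / Real.sqrt (η / 2)) hcv hCv hκ (by positivity)
  obtain ⟨c2, hc2, κ1, hκ1, δ0, hδ0, hcrude⟩ := h2 cv Cv κ hcv hCv hκ
  obtain ⟨e, he0, he1, he2⟩ : ∃ e : ℝ, 0 < e ∧ e ≤ 1 / 2 ∧ e * (θ + 3 + 2 * κ1) ≤ ε / 2 :=
    ⟨min (1 / 2) (ε / 2 / (θ + 3 + 2 * κ1)), lt_min (by norm_num) (by positivity),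
      min_le_left _ _, by
      have hp : 0 < θ + 3 + 2 * κ1 := by linarith
      calc min (1 / 2) (ε / 2 / (θ + 3 + 2 * κ1)) * (θ + 3 + 2 * κ1)
          ≤ (ε / 2 / (θ + 3 + 2 * κ1)) * (θ + 3 + 2 * κ1) :=
            mul_le_mul_of_nonneg_right (min_le_right _ _) hp.le
        _ = ε / 2 := by field_simp⟩
  obtain ⟨N0, hN0⟩ := eventually_atTop.1 (uu_lower h7 h9 hθ he0)
  obtain ⟨M, hM⟩ : ∃ M : ℝ, M = (θ + e) * (1 + e) + e := ⟨_, rfl⟩
  have hM0 : 0 ≤ M := by rw [hM]; positivity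
  obtain ⟨C0, hC0⟩ : ∃ C0 : ℝ, C0 = c2 * (1 / 8 * Real.exp (-1)) * (c2 * (1 / 2 : ℝ) ^ κ1) * (c1 / 2) :=
    ⟨_, rfl⟩
  have hC0pos : 0 < C0 := by rw [hC0]; positivity
  have hev : ∀ᶠ x : ℝ in atTop, (2 / η ≤ Real.exp (1 * x) ∧ Real.exp (-(e * x)) ≤ η ∧
      2 ≤ Real.exp ((1 - e) * x) ∧ (N0 : ℝ) ≤ Real.exp ((1 - e) * x)) ∧
      (L0 / η ≤ Real.exp (1 * x) ∧ s2 / δ0 ≤ Real.exp (1 / 2 * x) ∧
      Real.exp (-(e / 2 * x)) ≤ e / 8 * (e / 2) / s2) ∧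
      (2 * (M + 1) + 2 ≤ x ∧ 4 ≤ x ∧ Real.exp (-(ε / 2 * x)) ≤ C0) ∧
      (x ^ 8 + 1 ≤ Real.exp (e * x) ∧ 8 * s2 / e ≤ x ∧ 2 * (M + 4) / s1 ≤ x ∧
      Real.exp (-(1 * x)) ≤ c1 / 2 ∧ x ^ 2 + 1 ≤ Real.exp (1 / 2 * x)) := by
    refine ((ev_exp one_pos _).and ((ev_exp_neg he0 hη0).and ((ev_exp (by linarith) _).and
      (ev_exp (by linarith) _)))).and (((ev_exp one_pos _).and ((ev_exp (by norm_num) _).and
      (ev_exp_neg (by linarith) (by positivity)))).and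
      (((eventually_ge_atTop _).and ((eventually_ge_atTop _).and
      (ev_exp_neg (by linarith) hC0pos))).and ((ev_pow 8 he0).and ((eventually_ge_atTop _).and
      ((eventually_ge_atTop _).and ((ev_exp_neg one_pos (by linarith)).and
      (ev_pow 2 (by norm_num))))))))
  have hev2 := (Real.tendsto_log_atTop.comp tendsto_natCast_atTop_atTop).eventually hev
  obtain ⟨d0, hd0⟩ := eventually_atTop.1 (hev2.and (eventually_ge_atTop 1))
  refine ⟨d0, fun d hd σ hσ hσ1 hσ2 => ?_⟩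
  obtain ⟨⟨⟨a1, a2, a3, a4⟩, ⟨a5, a6, a7⟩, ⟨a8, a9, a10⟩, ⟨b1, b2, b3, b4, b5⟩⟩, hd1⟩ := hd0 d hd
  simp only [Function.comp_apply] at a1 a2 a3 a4 a5 a6 a7 a8 a9 a10 b1 b2 b3 b4 b5
  have hdpos : (0 : ℝ) < d := by exact_mod_cast hd1
  have hdx : Real.exp (Real.log d) = d := Real.exp_log hdpos
  obtain ⟨x, hx⟩ : ∃ x : ℝ, x = Real.log d := ⟨_, rfl⟩
  rw [← hx] at a1 a2 a3 a4 a5 a6 a7 a8 a9 a10 b1 b2 b3 b4 b5 hdx
  rw [one_mul, hdx] at a1 a5
  have hx0 : 0 ≤ x := by linarith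
  obtain ⟨B, hB⟩ : ∃ B : ℕ, B = ⌊η * d⌋₊ := ⟨_, rfl⟩
  obtain ⟨L, hL⟩ : ∃ L : ℕ, L = ⌊Real.exp ((1 - e) * x)⌋₊ := ⟨_, rfl⟩
  have hL2 : (L : ℝ) ≤ Real.exp ((1 - e) * x) := by rw [hL]; exact Nat.floor_le (Real.exp_pos _).le
  have hL3 : Real.exp ((1 - e) * x) < L + 1 := by rw [hL]; exact Nat.lt_floor_add_one _
  have hL1 : 1 ≤ L := by
    rw [hL]
    apply Nat.le_floor
    push_cast
    linarith
  have hLN : N0 ≤ L := by rw [hL]; exact Nat.le_floor a4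
  have hLhalf : Real.exp ((1 - e) * x) / 2 ≤ L := by linarith
  have hexp1 : Real.exp ((1 - e) * x) = Real.exp (-(e * x)) * d := by
    rw [← hdx, ← Real.exp_add]
    ring_nf
  have hηd2 : 2 ≤ η * d := by
    rw [div_le_iff₀ hη0] at a1
    linarith
  have hLB : L ≤ B := by
    rw [hL, hB]
    apply Nat.floor_le_floor
    rw [hexp1]
    exact mul_le_mul_of_nonneg_right a2 hdpos.le
  have hB2 : 2 ≤ B := by
    rw [hB]
    apply Nat.le_floor
    push_cast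
    exact hηd2
  have hBd1 : (B : ℝ) ≤ η * d := by rw [hB]; exact Nat.floor_le (by positivity)
  have hBd : (B : ℝ) ≤ d := by
    have : η * d ≤ 1 * d := mul_le_mul_of_nonneg_right hη1.le hdpos.le
    linarith
  have hBhalf : η / 2 * d ≤ B := by
    have : η * d < B + 1 := by rw [hB]; exact Nat.lt_floor_add_one _
    linarith
  have hB0 : (0 : ℝ) < B := by
    have : 0 < η / 2 * d := by positivity
    linarith
  have hL0B : L0 ≤ B := by
    rw [hB]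
    apply Nat.le_floor
    rw [div_le_iff₀ hη0] at a5
    linarith
  have hLx : (L : ℝ) ≤ Real.exp x := by
    rw [hdx]
    exact le_trans (by exact_mod_cast hLB) hBd
  have hσB : σ * B ≤ s2 := le_trans (mul_le_mul_of_nonneg_left hBd hσ.le) hσ2
  have hadm := hAdm σ B hσ hσB
  have hsd : 0 < Real.sqrt d := Real.sqrt_pos.2 hdpos
  have hsdd : Real.sqrt d * Real.sqrt d = d := Real.mul_self_sqrt hdpos.le
  have hsqd : Real.exp (1 / 2 * x) = Real.sqrt d := by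
    rw [show (1 / 2 : ℝ) * x = x / 2 by ring, Real.exp_half, hdx]
  -- the window for the float argument
  obtain ⟨x0, hx0d⟩ : ∃ x0 : ℕ, x0 = ⌈x ^ 8⌉₊ := ⟨_, rfl⟩
  have hx8 : (0 : ℝ) < x ^ 8 := by positivity
  have hx01 : 1 ≤ x0 := by rw [hx0d]; exact Nat.ceil_pos.2 hx8
  have hx0l : x ^ 8 ≤ (x0 : ℝ) := by rw [hx0d]; exact Nat.le_ceil _
  have hx0u : (x0 : ℝ) ≤ Real.exp (e * x) := by
    have : (x0 : ℝ) < x ^ 8 + 1 := by rw [hx0d]; exact Nat.ceil_lt_add_one hx8.le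
    linarith
  have hx0B : x0 ≤ B := by
    refine le_trans ?_ hLB
    rw [hL]
    apply Nat.le_floor
    exact hx0u.trans (Real.exp_le_exp.2
      (mul_le_mul_of_nonneg_right (by linarith : e ≤ 1 - e) hx0))
  -- the bad event for the first coordinate
  obtain ⟨D, hD⟩ : ∃ D : ℝ, D = d * x ^ 2 := ⟨_, rfl⟩
  have hd5 : (1 : ℝ) ≤ d := by exact_mod_cast hd1
  have hD2 : 2 ≤ D := by
    rw [hD]
    have g1 : (16 : ℝ) ≤ x ^ 2 := by
      calc (16 : ℝ) = 4 ^ 2 := by norm_num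
        _ ≤ x ^ 2 := pow_le_pow_left₀ (by norm_num) a9 2
    calc (2 : ℝ) ≤ 1 * 16 := by norm_num
      _ ≤ d * x ^ 2 := mul_le_mul hd5 g1 (by norm_num) hdpos.le
  have hq0 := x1_tail h10 h11 hσ hD2
  have hq : PP.real {ω | D < |(geo σ ω 1 : ℝ)|} ≤ Real.exp (-(s1 * x ^ 2 / 2)) := by
    refine hq0.trans (Real.exp_le_exp.2 ?_)
    rw [hD]
    have : s1 * x ^ 2 ≤ σ * d * x ^ 2 := mul_le_mul_of_nonneg_right hσ1 (by positivity)
    linarith
  obtain ⟨hq1, hq2⟩ := tail2_num hs1 hM0 (by linarith : (1 : ℝ) ≤ x) b3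
  -- crude events
  have hcr : ∀ a b : ℕ, 1 ≤ a → a ≤ b → b ≤ B → c2 * ((a : ℝ) / b) ^ κ1 ≤
      PP.real {ω | ∀ k ∈ Finset.Icc a b, (k : ℝ) ≤ C2 σ ω B k} := by
    intro a b ha hab hbB
    refine le_trans (hcrude _ _ B a b hadm hB2 ha hab hbB) (measureReal_mono ?_)
    intro ω hω k hk
    have g10 : δ0 * (1 / σ) * Real.sqrt k ≤ C2 σ ω B k := hω k hk
    refine le_trans ?_ g10
    have hkd : (k : ℝ) ≤ d := by
      have : (k : ℝ) ≤ B := by exact_mod_cast (Finset.mem_Icc.1 hk).2.trans hbB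
      linarith
    have hk0 : (0 : ℝ) ≤ k := Nat.cast_nonneg _
    have g11 : Real.sqrt k ≤ Real.sqrt d := Real.sqrt_le_sqrt hkd
    have g12 : Real.sqrt k * Real.sqrt k = k := Real.mul_self_sqrt hk0
    have g13 : σ * Real.sqrt d ≤ δ0 := by
      have g14 : s2 / δ0 ≤ Real.sqrt d := by
        rw [hsqd] at a6
        exact a6
      rw [div_le_iff₀ hδ0] at g14
      have g15 : σ * Real.sqrt d * Real.sqrt d ≤ δ0 * Real.sqrt d := by
        rw [mul_assoc, hsdd]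
        linarith
      exact le_of_mul_le_mul_right g15 hsd
    have g16 : σ * Real.sqrt k ≤ δ0 := le_trans (mul_le_mul_of_nonneg_left g11 hσ.le) g13
    have g17 : δ0 * (1 / σ) * Real.sqrt k = δ0 * Real.sqrt k / σ := by ring
    rw [g17, le_div_iff₀ hσ]
    calc (k : ℝ) * σ = (σ * Real.sqrt k) * Real.sqrt k := by
          rw [mul_assoc, g12]
          ring
      _ ≤ δ0 * Real.sqrt k := mul_le_mul_of_nonneg_right g16 (Real.sqrt_nonneg _)
  -- the zeroth event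
  have hFa : c2 * Real.exp (-(e * κ1 * x)) ≤
      PP.real {ω | ∀ k ∈ Finset.Icc 1 x0, (k : ℝ) ≤ C2 σ ω B k} := by
    refine le_trans (mul_le_mul_of_nonneg_left ?_ hc2.le) (hcr 1 x0 le_rfl hx01 hx0B)
    have g1 : Real.exp (-(e * x)) ≤ ((1 : ℕ) : ℝ) / x0 := by
      have hx0p : (0 : ℝ) < x0 := by exact_mod_cast hx01
      rw [Nat.cast_one, Real.exp_neg, le_div_iff₀ hx0p, inv_mul_le_iff₀ (Real.exp_pos _), mul_one]
      exact hx0u
    have g2 : Real.exp (-(e * κ1 * x)) = Real.exp (-(e * x)) ^ κ1 := by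
      rw [← Real.exp_mul]
      ring_nf
    rw [g2]
    exact Real.rpow_le_rpow (Real.exp_pos _).le g1 hκ1.le
  -- the last event
  have hF2 : c1 / 2 ≤ PP.real {ω | ∀ k ∈ ({B} : Finset ℕ), R * (d : ℝ) ^ (3 / 2 : ℝ) ≤ C2 σ ω B k} := by
    have g0 : PP.real {ω | (R + 1) * s2 / Real.sqrt (η / 2) * (1 / σ) * Real.sqrt B ≤
        ∑ j ∈ Finset.Icc 1 B, (j : ℝ) * (Tq (σ * j) (ω j) : ℝ)} ≤
        PP.real {ω | ∀ k ∈ ({B} : Finset ℕ), R * (d : ℝ) ^ (3 / 2 : ℝ) ≤ C2 σ ω B k} +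
        PP.real {ω | D < |(geo σ ω 1 : ℝ)|} := by
      refine le_trans (measureReal_mono ?_) (measureReal_union_le _ _)
      intro ω hω
      by_contra hcon
      rw [Set.mem_union, not_or] at hcon
      apply hcon.1
      have hgeo : |(geo σ ω 1 : ℝ)| ≤ D := not_lt.1 hcon.2
      intro k hk
      rw [Finset.mem_singleton] at hk
      rw [hk]
      have g10 : (R + 1) * s2 / Real.sqrt (η / 2) * (1 / σ) * Real.sqrt B ≤
          ∑ j ∈ Finset.Icc 1 B, (j : ℝ) * (Tq (σ * j) (ω j) : ℝ) := hω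
      have g11 : Cg σ ω B B = ∑ j ∈ Finset.Icc 1 B, (j : ℝ) * (Tq (σ * j) (ω j) : ℝ) := by
        unfold Cg Cs
        apply Finset.sum_congr rfl
        intro j hj
        rw [Finset.mem_Icc] at hj
        rw [min_eq_left hj.2]
        rfl
      rw [← g11, c2_eq σ ω B B (by omega) (by omega)] at g10
      have g12 : (d : ℝ) ^ (3 / 2 : ℝ) = d * Real.sqrt d := by
        rw [Real.sqrt_eq_rpow, show (3 / 2 : ℝ) = 1 + 1 / 2 by norm_num, Real.rpow_add hdpos,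
          Real.rpow_one]
      have g13 : Real.sqrt (η / 2) * Real.sqrt d ≤ Real.sqrt B := by
        rw [← Real.sqrt_mul (by linarith)]
        exact Real.sqrt_le_sqrt hBhalf
      have g14 : (d : ℝ) / s2 ≤ 1 / σ := by
        rw [div_le_div_iff₀ hs2 hσ]
        linarith
      have g15 : (R + 1) * (d * Real.sqrt d) ≤
          (R + 1) * s2 / Real.sqrt (η / 2) * (1 / σ) * Real.sqrt B := by
        calc (R + 1) * (d * Real.sqrt d)
            = (R + 1) * s2 / Real.sqrt (η / 2) * (d / s2) * (Real.sqrt (η / 2) * Real.sqrt d) := by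
              field_simp
          _ ≤ (R + 1) * s2 / Real.sqrt (η / 2) * (1 / σ) * Real.sqrt B := by
              apply mul_le_mul _ g13 (by positivity) (by positivity)
              exact mul_le_mul_of_nonneg_left g14 (by positivity)
      have g16 : D ≤ d * Real.sqrt d := by
        rw [hD]
        apply mul_le_mul_of_nonneg_left _ hdpos.le
        rw [← hsqd]
        linarith
      have g17 := (abs_le.1 hgeo).2
      rw [g12]
      linarith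
    have g1 := hbig _ _ B hadm hL0B
    have g2 : PP.real {ω | (R + 1) * s2 / Real.sqrt (η / 2) * (1 / σ) * Real.sqrt B ≤
        ∑ j ∈ Finset.Icc 1 B, (j : ℝ) * (Tq (σ * j) (ω j) : ℝ)} ≥ c1 := g1
    linarith
  -- the float event
  have hF0' : 1 / 4 * Real.exp (-(M * x) - 1) ≤
      PP.real {ω | ∀ k ∈ Finset.Icc x0 L, (k : ℝ) ≤ C2 σ ω L k} := by
    have hcond : σ * (Real.sqrt L * (1 + Real.sqrt L * x)) ≤ e / 8 := by
      have hLr : (1 : ℝ) ≤ L := by exact_mod_cast hL1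
      have g10 : Real.sqrt L * Real.sqrt L = L := Real.mul_self_sqrt (by linarith)
      have g11 : Real.sqrt L ≤ L := by
        have g12 : 1 ≤ Real.sqrt L := Real.one_le_sqrt.2 hLr
        calc Real.sqrt L = Real.sqrt L * 1 := (mul_one _).symm
          _ ≤ Real.sqrt L * Real.sqrt L := mul_le_mul_of_nonneg_left g12 (Real.sqrt_nonneg _)
          _ = L := g10
      have g12 : Real.sqrt L * (1 + Real.sqrt L * x) ≤ Real.exp ((1 - e) * x) * (1 + x) := by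
        calc Real.sqrt L * (1 + Real.sqrt L * x)
            = Real.sqrt L + Real.sqrt L * Real.sqrt L * x := by ring
          _ = Real.sqrt L + L * x := by rw [g10]
          _ ≤ L + L * x := by linarith
          _ = L * (1 + x) := by ring
          _ ≤ Real.exp ((1 - e) * x) * (1 + x) :=
            mul_le_mul_of_nonneg_right hL2 (by linarith)
      have g13 : 1 + x ≤ 2 / e * Real.exp (e / 2 * x) := by
        have g14 := Real.add_one_le_exp (e / 2 * x)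
        have g15 : 2 / e * (e / 2 * x + 1) = x + 2 / e := by
          field_simp
        have g16 : 1 ≤ 2 / e := by
          rw [le_div_iff₀ he0]
          linarith
        have g17 : 2 / e * (e / 2 * x + 1) ≤ 2 / e * Real.exp (e / 2 * x) :=
          mul_le_mul_of_nonneg_left g14 (by positivity)
        linarith
      have g18 : Real.exp (-(e * x)) * (1 + x) ≤ 2 / e * Real.exp (-(e / 2 * x)) := by
        calc Real.exp (-(e * x)) * (1 + x)
            ≤ Real.exp (-(e * x)) * (2 / e * Real.exp (e / 2 * x)) :=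
              mul_le_mul_of_nonneg_left g13 (Real.exp_pos _).le
          _ = 2 / e * (Real.exp (-(e * x)) * Real.exp (e / 2 * x)) := by ring
          _ = 2 / e * Real.exp (-(e / 2 * x)) := by
              rw [← Real.exp_add]
              ring_nf
      calc σ * (Real.sqrt L * (1 + Real.sqrt L * x))
          ≤ σ * (Real.exp ((1 - e) * x) * (1 + x)) := mul_le_mul_of_nonneg_left g12 hσ.le
        _ = σ * d * (Real.exp (-(e * x)) * (1 + x)) := by rw [hexp1]; ring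
        _ ≤ s2 * (2 / e * Real.exp (-(e / 2 * x))) :=
            mul_le_mul hσ2 g18 (mul_nonneg (Real.exp_pos _).le (by linarith)) hs2.le
        _ ≤ s2 * (2 / e * (e / 8 * (e / 2) / s2)) := by
            apply mul_le_mul_of_nonneg_left _ hs2.le
            exact mul_le_mul_of_nonneg_left a7 (by positivity)
        _ = e / 8 := by field_simp
    have hDc : σ * D ≤ e / 8 * Real.sqrt x0 := by
      have g1 : x ^ 4 ≤ Real.sqrt x0 := by
        apply Real.le_sqrt_of_sq_le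
        have g0 : (x ^ 4) ^ 2 = x ^ 8 := by ring
        rw [g0]
        exact hx0l
      have g2 : s2 ≤ e / 8 * x := by
        rw [div_le_iff₀ he0] at b2
        linarith
      calc σ * D = σ * d * x ^ 2 := by rw [hD]; ring
        _ ≤ s2 * x ^ 2 := mul_le_mul_of_nonneg_right hσ2 (by positivity)
        _ ≤ (e / 8 * x) * x ^ 2 := mul_le_mul_of_nonneg_right g2 (by positivity)
        _ = e / 8 * (x ^ 3 * 1) := by ring
        _ ≤ e / 8 * (x ^ 3 * x) := by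
            apply mul_le_mul_of_nonneg_left _ (by positivity)
            exact mul_le_mul_of_nonneg_left (by linarith) (by positivity)
        _ = e / 8 * x ^ 4 := by ring
        _ ≤ e / 8 * Real.sqrt x0 := mul_le_mul_of_nonneg_left g1 (by positivity)
    have g10 := f0_lower2 h5 h6 L x0 x hσ he0 (by linarith) hL1 hx01 hx0 hcond hDc hq
    have g11 := f0_num hθ0 he0 (by linarith) hx0 hL1 hLx (hN0 L hLN)
    have g12 := tail_num a8 a9 hLx
    rw [← hM] at g11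
    linarith
  have hF0 : 1 / 8 * Real.exp (-(M * x) - 1) ≤
      PP.real {ω | ∀ k ∈ Finset.Icc x0 L, (k : ℝ) ≤ C2 σ ω B k} := by
    refine le_trans ?_ (f0_half2 h7 h8 h10 hσ x0 L B hL1 hLB)
    linarith
  have hF1' : c2 * ((1 / 2 : ℝ) ^ κ1 * Real.exp (-(e * κ1 * x))) ≤
      PP.real {ω | ∀ k ∈ Finset.Icc L B, (k : ℝ) ≤ C2 σ ω B k} := by
    refine le_trans (mul_le_mul_of_nonneg_left ?_ hc2.le) (hcr L B hL1 hLB le_rfl)
    have g10 : 1 / 2 * Real.exp (-(e * x)) ≤ (L : ℝ) / B := by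
      rw [le_div_iff₀ hB0]
      calc 1 / 2 * Real.exp (-(e * x)) * B ≤ 1 / 2 * Real.exp (-(e * x)) * d :=
            mul_le_mul_of_nonneg_left hBd (by positivity)
        _ = Real.exp ((1 - e) * x) / 2 := by rw [hexp1]; ring
        _ ≤ L := hLhalf
    have g11 : (1 / 2 : ℝ) ^ κ1 * Real.exp (-(e * κ1 * x)) =
        (1 / 2 * Real.exp (-(e * x))) ^ κ1 := by
      rw [Real.mul_rpow (by norm_num) (Real.exp_pos _).le, ← Real.exp_mul]
      ring_nf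
    rw [g11]
    exact Real.rpow_le_rpow (by positivity) g10 hκ1.le
  have hhar := harris4 h9 (Finset.Icc 1 B) _ _ _ _
    (ev2_meas h10 hσ B (Finset.Icc 1 x0) (fun k => (k : ℝ)))
    (ev2_meas h10 hσ B (Finset.Icc x0 L) (fun k => (k : ℝ)))
    (ev2_meas h10 hσ B (Finset.Icc L B) (fun k => (k : ℝ)))
    (ev2_meas h10 hσ B ({B} : Finset ℕ) (fun _ => R * (d : ℝ) ^ (3 / 2 : ℝ)))
    (ev2_dep σ B (Finset.Icc 1 x0) (fun k => (k : ℝ)))
    (ev2_dep σ B (Finset.Icc x0 L) (fun k => (k : ℝ)))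
    (ev2_dep σ B (Finset.Icc L B) (fun k => (k : ℝ)))
    (ev2_dep σ B ({B} : Finset ℕ) (fun _ => R * (d : ℝ) ^ (3 / 2 : ℝ)))
    (ev2_upper h10 hσ B (Finset.Icc 1 x0) (fun k => (k : ℝ)))
    (ev2_upper h10 hσ B (Finset.Icc x0 L) (fun k => (k : ℝ)))
    (ev2_upper h10 hσ B (Finset.Icc L B) (fun k => (k : ℝ)))
    (ev2_upper h10 hσ B ({B} : Finset ℕ) (fun _ => R * (d : ℝ) ^ (3 / 2 : ℝ)))
  rw [← hB]
  have hprod : c2 * Real.exp (-(e * κ1 * x)) * (1 / 8 * Real.exp (-(M * x) - 1)) *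
      (c2 * ((1 / 2 : ℝ) ^ κ1 * Real.exp (-(e * κ1 * x)))) * (c1 / 2) ≤
      PP.real {ω | ∀ k ∈ Finset.Icc 1 x0, (k : ℝ) ≤ C2 σ ω B k} *
      PP.real {ω | ∀ k ∈ Finset.Icc x0 L, (k : ℝ) ≤ C2 σ ω B k} *
      PP.real {ω | ∀ k ∈ Finset.Icc L B, (k : ℝ) ≤ C2 σ ω B k} *
      PP.real {ω | ∀ k ∈ ({B} : Finset ℕ), R * (d : ℝ) ^ (3 / 2 : ℝ) ≤ C2 σ ω B k} := by
    apply mul_le_mul _ hF2 (by positivity)
      (mul_nonneg (mul_nonneg measureReal_nonneg measureReal_nonneg) measureReal_nonneg)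
    apply mul_le_mul _ hF1' (by positivity) (mul_nonneg measureReal_nonneg measureReal_nonneg)
    exact mul_le_mul hFa hF0 (by positivity) measureReal_nonneg
  have hfin : (d : ℝ) ^ (-θ - ε) ≤
      c2 * Real.exp (-(e * κ1 * x)) * (1 / 8 * Real.exp (-(M * x) - 1)) *
      (c2 * ((1 / 2 : ℝ) ^ κ1 * Real.exp (-(e * κ1 * x)))) * (c1 / 2) := by
    have g10 : (d : ℝ) ^ (-θ - ε) = Real.exp (-(ε / 2 * x)) * Real.exp (-((θ + ε / 2) * x)) := by
      rw [Real.rpow_def_of_pos hdpos, ← hx, ← Real.exp_add]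
      ring_nf
    have g11 : c2 * Real.exp (-(e * κ1 * x)) * (1 / 8 * Real.exp (-(M * x) - 1)) *
        (c2 * ((1 / 2 : ℝ) ^ κ1 * Real.exp (-(e * κ1 * x)))) * (c1 / 2) =
        C0 * (Real.exp (-(M * x)) * (Real.exp (-(e * κ1 * x)) * Real.exp (-(e * κ1 * x)))) := by
      rw [hC0, sub_eq_add_neg, Real.exp_add]
      ring
    rw [g10, g11]
    apply mul_le_mul a10 _ (Real.exp_pos _).le hC0pos.le
    rw [← Real.exp_add, ← Real.exp_add]
    apply Real.exp_le_exp.2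
    have g12 : M + 2 * (e * κ1) ≤ θ + ε / 2 := by
      have he3 : e * e ≤ e * 1 := mul_le_mul_of_nonneg_left (by linarith) he0.le
      have g13 : (θ + e) * (1 + e) + e + 2 * (e * κ1) =
          θ + e * (θ + 3 + 2 * κ1) + (e * e - e * 1) := by ring
      rw [hM, g13]
      linarith
    have g14 := mul_le_mul_of_nonneg_right g12 hx0
    linarith
  refine le_trans hfin (le_trans hprod (le_trans hhar (measureReal_mono ?_)))
  rintro ω ⟨⟨⟨g0, g1⟩, g2⟩, g3⟩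
  refine ⟨fun k hk => ?_, ?_⟩
  · rw [Finset.mem_Icc] at hk
    rcases le_total k x0 with h | h
    · exact g0 k (Finset.mem_Icc.2 ⟨hk.1, h⟩)
    · rcases le_total k L with h' | h'
      · exact g1 k (Finset.mem_Icc.2 ⟨h, h'⟩)
      · exact g2 k (Finset.mem_Icc.2 ⟨h', hk.2⟩)
  · have g4 : R * (d : ℝ) ^ (3 / 2 : ℝ) ≤ C2 σ ω B B := g3 B (Finset.mem_singleton_self B)
    have g5 : C2 σ ω B B = ∑ j ∈ Finset.Icc 2 B, (j : ℝ) * (geo σ ω j : ℝ) := by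
      unfold C2
      apply Finset.sum_congr rfl
      intro j hj
      rw [Finset.mem_Icc] at hj
      rw [min_eq_left hj.2]
    rw [g5] at g4
    exact g4

end Pool.Agent.H675.GP174
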