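import Pool.Agent.H174.GP.StI

/-!
# From a fine geometric grid to all times, integrated Gaussian walk (project GP of helper174)
-/

set_option autoImplicit false

open MeasureTheory ProbabilityTheory Finset Filter Topology

namespace Pool.Agent.H675.GP174

open Pool.Agent.H174.GP

/-! ## The walk -/

theorem gd_meas_S (l : ℕ) : Measurable (fun z : ℕ → ℝ => S z l) := by
  unfold S
  exact Finset.measurable_sum _ fun i _ => measurable_pi_apply i

theorem gd_meas_I (w : ℕ) : Measurable (fun z : ℕ → ℝ => Iw z w) := by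
  unfold Iw
  exact Finset.measurable_sum _ fun i _ => gd_meas_S i

theorem gd_dep_S {M l : ℕ} (hl : l ≤ M) {z z' : ℕ → ℝ} (h : ∀ j ∈ Finset.Icc 1 M, z j = z' j) :
    S z l = S z' l := by
  unfold S
  refine Finset.sum_congr rfl fun j hj => h j ?_
  rw [Finset.mem_Icc] at hj ⊢
  exact ⟨hj.1, hj.2.trans hl⟩

theorem gd_dep_I {M w : ℕ} (hw : w ≤ M) {z z' : ℕ → ℝ} (h : ∀ j ∈ Finset.Icc 1 M, z j = z' j) :
    Iw z w = Iw z' w := by
  unfold Iw
  refine Finset.sum_congr rfl fun j hj => gd_dep_S ?_ h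
  exact (Finset.mem_Icc.1 hj).2.trans hw

theorem gd_mono_S {z z' : ℕ → ℝ} (h : z ≤ z') (l : ℕ) : S z l ≤ S z' l := by
  unfold S
  exact Finset.sum_le_sum fun j _ => h j

theorem gd_mono_I {z z' : ℕ → ℝ} (h : z ≤ z') (w : ℕ) : Iw z w ≤ Iw z' w := by
  unfold Iw
  exact Finset.sum_le_sum fun j _ => gd_mono_S h j

theorem gd_diff (z : ℕ → ℝ) {v w : ℕ} (h : v ≤ w) :
    Iw z w - Iw z v = ∑ u ∈ Finset.Ioc v w, S z u := by
  unfold Iw
  have h1 : ∀ n : ℕ, Finset.Icc 1 n = Finset.Ioc 0 n := by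
    intro n
    ext j
    rw [Finset.mem_Icc, Finset.mem_Ioc]
    omega
  rw [h1, h1, ← Finset.sum_Ioc_consecutive (fun u => S z u) (Nat.zero_le v) h]
  ring

theorem gd_sub_S (z η : ℕ → ℝ) (l : ℕ) : S (fun j => z j - η j) l = S z l - S η l := by
  unfold S
  exact Finset.sum_sub_distrib ..

theorem gd_sub_I (z η : ℕ → ℝ) (w : ℕ) : Iw (fun j => z j - η j) w = Iw z w - Iw η w := by
  unfold Iw
  rw [← Finset.sum_sub_distrib]
  exact Finset.sum_congr rfl fun j _ => gd_sub_S z η j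

theorem gd_eta (δ : ℝ) (hδ : 0 ≤ δ) (w : ℕ) (hw : 1 ≤ w) :
    δ / 2 * ((w : ℝ) * Real.sqrt w) ≤ Iw (fun j => δ / Real.sqrt j) w := by
  have hw0 : (0 : ℝ) < w := by exact_mod_cast hw
  have hs : 0 < Real.sqrt w := Real.sqrt_pos.2 hw0
  have hss : Real.sqrt w * Real.sqrt w = w := Real.mul_self_sqrt hw0.le
  have h1 : ∀ l ∈ Finset.Icc 1 w, δ / Real.sqrt w * (l : ℝ) ≤ S (fun j => δ / Real.sqrt j) l := by
    intro l hl
    unfold S
    have h2 : ∑ _j ∈ Finset.Icc 1 l, δ / Real.sqrt w = δ / Real.sqrt w * (l : ℝ) := by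
      rw [Finset.sum_const, Nat.card_Icc, Nat.add_sub_cancel, nsmul_eq_mul, mul_comm]
    rw [← h2]
    refine Finset.sum_le_sum fun j hj => ?_
    rw [Finset.mem_Icc] at hj hl
    have hj0 : (0 : ℝ) < j := by exact_mod_cast hj.1
    have hjw : (j : ℝ) ≤ w := by exact_mod_cast hj.2.trans hl.2
    exact div_le_div_of_nonneg_left hδ (Real.sqrt_pos.2 hj0) (Real.sqrt_le_sqrt hjw)
  have h3 : ∑ l ∈ Finset.Icc 1 w, δ / Real.sqrt w * (l : ℝ) ≤ Iw (fun j => δ / Real.sqrt j) w := by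
    unfold Iw
    exact Finset.sum_le_sum h1
  refine le_trans ?_ h3
  rw [← Finset.mul_sum]
  have h4 : ∑ l ∈ Finset.Icc 1 w, (l : ℝ) = (w : ℝ) * (w + 1) / 2 := by
    clear h1 h3 hs hss hw0
    induction w, hw using Nat.le_induction with
    | base => norm_num
    | succ n hn ih =>
      rw [Finset.sum_Icc_succ_top (by omega), ih]
      push_cast
      ring
  rw [h4]
  have h5 : δ / Real.sqrt w * ((w : ℝ) * (w + 1) / 2) =
      δ / 2 * ((w : ℝ) * Real.sqrt w) + δ / 2 * Real.sqrt w := by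
    rw [div_mul_eq_mul_div, div_eq_iff hs.ne']
    calc δ * ((w : ℝ) * (w + 1) / 2) = δ / 2 * (w * w) + δ / 2 * w := by ring
      _ = δ / 2 * (w * (Real.sqrt w * Real.sqrt w)) + δ / 2 * (Real.sqrt w * Real.sqrt w) := by
        rw [hss]
      _ = _ := by ring
  rw [h5]
  have : 0 ≤ δ / 2 * Real.sqrt w := by positivity
  linarith

theorem gd_eta2 (δ : ℝ) (M : ℕ) :
    ∑ j ∈ Finset.Icc 1 M, (δ / Real.sqrt j) ^ 2 ≤ δ ^ 2 * (1 + Real.log M) := by
  have h1 := harmonic_le_one_add_log M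
  rw [harmonic_eq_sum_Icc] at h1
  push_cast at h1
  refine le_trans (le_of_eq ?_) (mul_le_mul_of_nonneg_left h1 (sq_nonneg δ))
  rw [Finset.mul_sum]
  refine Finset.sum_congr rfl fun j _ => ?_
  rw [div_pow, Real.sq_sqrt (Nat.cast_nonneg j), div_eq_mul_inv]

/-! ## The events -/

/-- no big drop between `v` and `w'` -/
def gdE (δ : ℝ) (v w' : ℕ) : Set (ℕ → ℝ) :=
  {z | ∀ w ∈ Finset.Icc v w', -(δ / 2 * ((v : ℝ) * Real.sqrt v)) ≤ Iw z w - Iw z v}

theorem gdE_meas (δ : ℝ) (v w' : ℕ) : MeasurableSet (gdE δ v w') := by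
  have h : gdE δ v w' = ⋂ w ∈ Finset.Icc v w',
      {z | -(δ / 2 * ((v : ℝ) * Real.sqrt v)) ≤ Iw z w - Iw z v} := by
    ext z
    simp only [gdE, Set.mem_ofPred_eq, Set.mem_iInter]
  rw [h]
  exact Finset.measurableSet_biInter _ fun w _ =>
    measurableSet_le measurable_const ((gd_meas_I w).sub (gd_meas_I v))

theorem gdE_dep (δ : ℝ) {v w' M : ℕ} (hv : v ≤ w') (hM : w' ≤ M) :
    DepOn (Finset.Icc 1 M) (gdE δ v w') := by
  intro z z' h hz w hw
  rw [← gd_dep_I ((Finset.mem_Icc.1 hw).2.trans hM) h, ← gd_dep_I (hv.trans hM) h]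
  exact hz w hw

theorem gdE_upper (δ : ℝ) (v w' : ℕ) : IsUpperSet (gdE δ v w') := by
  intro z z' h hz w hw
  refine (hz w hw).trans ?_
  rw [gd_diff z (Finset.mem_Icc.1 hw).1, gd_diff z' (Finset.mem_Icc.1 hw).1]
  exact Finset.sum_le_sum fun u _ => gd_mono_S h u

theorem gdE_prob (h3 : S_gmaxS) {δ h : ℝ} (hδ : 0 < δ) (hh : 0 < h) (hh1 : h ≤ 1) {v w' : ℕ}
    (hv : 1 ≤ v) (hw' : 1 ≤ w') (hvw : (w' : ℝ) ≤ (1 + 2 * h) * v) :
    1 - 4 * Real.exp (-(δ ^ 2 / (96 * h ^ 2))) ≤ GA.real (gdE δ v w') := by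
  have hv0 : (0 : ℝ) < v := by exact_mod_cast hv
  have hs : 0 < Real.sqrt v := Real.sqrt_pos.2 hv0
  have hss : Real.sqrt v * Real.sqrt v = v := Real.mul_self_sqrt hv0.le
  set t : ℝ := δ / (4 * h) * Real.sqrt v with ht
  have ht0 : 0 < t := by positivity
  have hsub : (gdE δ v w')ᶜ ⊆ {z | ∃ l ∈ Finset.Icc 0 w', t ≤ |S z l - S z 0|} := by
    intro z hz
    by_contra hcon
    apply hz
    have hcon' : ∀ l, l ≤ w' → |S z l| < t := by
      intro l hl
      by_contra hl2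
      push Not at hl2
      apply hcon
      refine ⟨l, Finset.mem_Icc.2 ⟨Nat.zero_le _, hl⟩, ?_⟩
      have h0 : S z 0 = 0 := by
        unfold S
        rw [Finset.Icc_eq_empty (by omega), Finset.sum_empty]
      rw [h0, sub_zero]
      exact hl2
    intro w hw
    rw [Finset.mem_Icc] at hw
    rw [gd_diff z hw.1]
    have h1 : ∑ _u ∈ Finset.Ioc v w, (-t) ≤ ∑ u ∈ Finset.Ioc v w, S z u := by
      refine Finset.sum_le_sum fun u hu => ?_
      have h2 := hcon' u ((Finset.mem_Ioc.1 hu).2.trans hw.2)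
      exact (abs_lt.1 h2).1.le
    refine le_trans ?_ h1
    rw [Finset.sum_const, Nat.card_Ioc, nsmul_eq_mul, Nat.cast_sub hw.1]
    have h4 : (w : ℝ) - v ≤ 2 * h * v := by
      have : (w : ℝ) ≤ w' := by exact_mod_cast hw.2
      nlinarith
    have h5 : ((w : ℝ) - v) * t ≤ 2 * h * v * t := mul_le_mul_of_nonneg_right h4 ht0.le
    have h6 : 2 * h * v * t = δ / 2 * ((v : ℝ) * Real.sqrt v) := by
      rw [ht]
      field_simp
      ring
    nlinarith
  have h7 : GA.real (gdE δ v w')ᶜ ≤ 4 * Real.exp (-(δ ^ 2 / (96 * h ^ 2))) := by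
    refine (measureReal_mono hsub).trans ((h3 0 w' t (by omega) ht0.le).trans ?_)
    refine mul_le_mul_of_nonneg_left (Real.exp_le_exp.2 (neg_le_neg ?_)) (by norm_num)
    have hw0 : (0 : ℝ) < w' := by exact_mod_cast hw'
    rw [Nat.cast_zero, sub_zero]
    have h8 : (w' : ℝ) ≤ 3 * v := by nlinarith
    have h9 : t ^ 2 = δ ^ 2 / (16 * h ^ 2) * v := by
      rw [ht]
      calc (δ / (4 * h) * Real.sqrt v) ^ 2
          = (δ / (4 * h)) ^ 2 * (Real.sqrt v * Real.sqrt v) := by ring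
        _ = (δ / (4 * h)) ^ 2 * v := by rw [hss]
        _ = _ := by
          rw [div_pow, mul_pow]
          norm_num
    rw [h9, le_div_iff₀ (by positivity)]
    have h10 : δ ^ 2 / (96 * h ^ 2) * (2 * (w' : ℝ)) ≤ δ ^ 2 / (96 * h ^ 2) * (6 * v) := by
      refine mul_le_mul_of_nonneg_left (by linarith) (by positivity)
    refine h10.trans (le_of_eq ?_)
    field_simp
    ring
  have h11 : GA.real (gdE δ v w')ᶜ = 1 - GA.real (gdE δ v w') :=
    probReal_compl_eq_one_sub (gdE_meas δ v w')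
  linarith

/-- the event on the grid -/
def gdF (δ : ℝ) (W : ℕ → ℕ) (i1 N : ℕ) : Set (ℕ → ℝ) :=
  {z | ∀ i ∈ Finset.Icc i1 N, δ / 2 * ((W i : ℝ) * Real.sqrt (W i)) ≤ Iw z (W i)}

theorem gdF_meas (δ : ℝ) (W : ℕ → ℕ) (i1 N : ℕ) : MeasurableSet (gdF δ W i1 N) := by
  have h : gdF δ W i1 N = ⋂ i ∈ Finset.Icc i1 N,
      {z | δ / 2 * ((W i : ℝ) * Real.sqrt (W i)) ≤ Iw z (W i)} := by
    ext z
    simp only [gdF, Set.mem_ofPred_eq, Set.mem_iInter]
  rw [h]
  exact Finset.measurableSet_biInter _ fun i _ =>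
    measurableSet_le measurable_const (gd_meas_I _)

theorem gdF_dep (δ : ℝ) {W : ℕ → ℕ} {i1 N M : ℕ} (hM : ∀ i ∈ Finset.Icc i1 N, W i ≤ M) :
    DepOn (Finset.Icc 1 M) (gdF δ W i1 N) := by
  intro z z' h hz i hi
  rw [← gd_dep_I (hM i hi) h]
  exact hz i hi

theorem gdF_upper (δ : ℝ) (W : ℕ → ℕ) (i1 N : ℕ) : IsUpperSet (gdF δ W i1 N) := by
  intro z z' h hz i hi
  exact (hz i hi).trans (gd_mono_I h _)

/-- Step 1: the shift -/
theorem gd_shift (h1 : S_gshift) {ε δ : ℝ} (hε : 0 < ε) (hε1 : ε ≤ 1) (hδ : 0 ≤ δ)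
    {W : ℕ → ℕ} {i1 N M : ℕ} (hM : ∀ i ∈ Finset.Icc i1 N, 1 ≤ W i ∧ W i ≤ M) :
    (GA.real {z | ∀ i ∈ Finset.Icc i1 N, 0 ≤ Iw z (W i)}) ^ (1 + ε) *
      Real.exp (-(1 / ε * (δ ^ 2 * (1 + Real.log M)))) ≤ GA.real (gdF δ W i1 N) := by
  have hF : {z : ℕ → ℝ | ∀ i ∈ Finset.Icc i1 N, 0 ≤ Iw z (W i)} = gdF 0 W i1 N := by
    ext z
    simp only [gdF, Set.mem_ofPred_eq, zero_div, zero_mul]
  rw [hF]
  have h2 := h1 ε M (fun j => δ / Real.sqrt j) (gdF 0 W i1 N) hε hε1 (gdF_meas 0 W i1 N)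
    (gdF_dep 0 fun i hi => (hM i hi).2)
  have h3 : GA.real {z : ℕ → ℝ | (fun j => z j - δ / Real.sqrt j) ∈ gdF 0 W i1 N} ≤
      GA.real (gdF δ W i1 N) := by
    refine measureReal_mono ?_
    intro z hz i hi
    have h4 := hz i hi
    rw [gd_sub_I z (fun j => δ / Real.sqrt j), zero_div, zero_mul] at h4
    have h5 := gd_eta δ hδ (W i) (hM i hi).1
    linarith
  refine le_trans ?_ (h2.trans h3)
  refine mul_le_mul_of_nonneg_left (Real.exp_le_exp.2 (neg_le_neg ?_))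
    (Real.rpow_nonneg measureReal_nonneg _)
  exact mul_le_mul_of_nonneg_left (gd_eta2 δ M) (by positivity)

/-- Step 2: Harris -/
theorem gd_harris (h2 : S_gharris) {δ p : ℝ} (hδ : 0 ≤ δ) (hp0 : 0 ≤ p) {W : ℕ → ℕ}
    (hW : Monotone W) {i1 N : ℕ} (hN : i1 ≤ N)
    (hE : ∀ i ∈ Finset.Ico i1 N, p ≤ GA.real (gdE δ (W i) (W (i + 1)))) :
    GA.real (gdF δ W i1 N) * p ^ (N - i1) ≤
      GA.real {z | ∀ w ∈ Finset.Icc (W i1) (W N), 0 ≤ Iw z w} := by
  have h3 := h2 (Finset.Icc 1 (W N)) (Finset.Icc i1 N)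
    (fun i => if i = N then gdF δ W i1 N else gdE δ (W i) (W (i + 1)))
    (by
      intro i _
      by_cases hi : i = N
      · simp only [hi, if_true]
        exact gdF_meas ..
      · simp only [hi, if_false]
        exact gdE_meas ..)
    (by
      intro i hi
      rw [Finset.mem_Icc] at hi
      by_cases hiN : i = N
      · simp only [hiN, if_true]
        exact gdF_dep δ fun j hj => hW (Finset.mem_Icc.1 hj).2
      · simp only [hiN, if_false]
        exact gdE_dep δ (hW (Nat.le_succ i)) (hW (by omega)))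
    (by
      intro i _
      by_cases hi : i = N
      · simp only [hi, if_true]
        exact gdF_upper ..
      · simp only [hi, if_false]
        exact gdE_upper ..)
  rw [← Finset.Ico_insert_right hN, Finset.prod_insert Finset.right_notMem_Ico, if_pos rfl] at h3
  have h4 : p ^ (N - i1) ≤ ∏ i ∈ Finset.Ico i1 N,
      GA.real (if i = N then gdF δ W i1 N else gdE δ (W i) (W (i + 1))) := by
    have h5 : p ^ (N - i1) = ∏ _i ∈ Finset.Ico i1 N, p := by
      rw [Finset.prod_const, Nat.card_Ico]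
    rw [h5]
    refine Finset.prod_le_prod (fun _ _ => hp0) fun i hi => ?_
    rw [if_neg (by rw [Finset.mem_Ico] at hi; omega)]
    exact hE i hi
  refine (mul_le_mul_of_nonneg_left h4 measureReal_nonneg).trans (h3.trans ?_)
  refine measureReal_mono ?_
  intro z hz w hw
  rw [Finset.mem_Icc] at hw
  rw [Set.mem_iInter₂] at hz
  have hzF : z ∈ gdF δ W i1 N := by
    have h6 := hz N (Finset.mem_insert_self _ _)
    rw [if_pos rfl] at h6
    exact h6
  have hzE : ∀ i ∈ Finset.Ico i1 N, z ∈ gdE δ (W i) (W (i + 1)) := by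
    intro i hi
    have h6 := hz i (Finset.mem_insert_of_mem hi)
    rw [if_neg (by rw [Finset.mem_Ico] at hi; omega)] at h6
    exact h6
  -- the last grid point below `w`
  have hex : ∃ i, i1 ≤ i ∧ i ≤ N ∧ W i ≤ w ∧ (i = N ∨ w ≤ W (i + 1)) := by
    by_contra hcon
    push Not at hcon
    have h7 : ∀ k, i1 + k ≤ N → W (i1 + k) ≤ w := by
      intro k
      induction k with
      | zero => intro _; exact hw.1
      | succ k ih =>
        intro hk
        have h8 := ih (by omega)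
        have h9 := (hcon (i1 + k) (by omega) (by omega) h8).2
        exact h9.le
    have h10 := h7 (N - i1) (by omega)
    rw [show i1 + (N - i1) = N by omega] at h10
    exact (hcon N hN le_rfl h10).1 rfl
  obtain ⟨i, hi1, hi2, hi3, hi4⟩ := hex
  have h11 := hzF i (Finset.mem_Icc.2 ⟨hi1, hi2⟩)
  have h12 : 0 ≤ δ / 2 * ((W i : ℝ) * Real.sqrt (W i)) := by positivity
  rcases eq_or_lt_of_le hi2 with hiN | hiN
  · have h13 : w = W i := le_antisymm (by rw [hiN]; exact hw.2) hi3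
    rw [h13]
    linarith
  · have h14 : w ≤ W (i + 1) := by
      rcases hi4 with h | h
      · omega
      · exact h
    have h15 := hzE i (Finset.mem_Ico.2 ⟨hi1, hiN⟩) w (Finset.mem_Icc.2 ⟨hi3, h14⟩)
    linarith

/-! ## The grid -/

theorem gd_Wg_mono {h : ℝ} (hh : 0 < h) : Monotone (Wg h) := by
  intro i j hij
  unfold Wg
  exact Nat.ceil_mono (pow_le_pow_right₀ (by linarith) hij)

theorem gd_Wg_ge (h : ℝ) (i : ℕ) : (1 + h) ^ i ≤ (Wg h i : ℝ) := by
  unfold Wg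
  exact Nat.le_ceil _

theorem gd_Wg_pos {h : ℝ} (hh : 0 < h) (i : ℕ) : 1 ≤ Wg h i := by
  have h1 := gd_Wg_ge h i
  have h2 : (1 : ℝ) ≤ (1 + h) ^ i := one_le_pow₀ (by linarith)
  exact_mod_cast h2.trans h1

theorem gd_Wg_step {h : ℝ} (hh : 0 < h) {i : ℕ} (hi : 1 / h ≤ (1 + h) ^ i) :
    (Wg h (i + 1) : ℝ) ≤ (1 + 2 * h) * Wg h i := by
  have h1 : (Wg h (i + 1) : ℝ) < (1 + h) ^ (i + 1) + 1 := by
    unfold Wg
    exact Nat.ceil_lt_add_one (by positivity)
  have h2 := gd_Wg_ge h i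
  have h3 : 1 ≤ h * (Wg h i : ℝ) := by
    have h4 : 1 / h ≤ (Wg h i : ℝ) := hi.trans h2
    rw [div_le_iff₀ hh] at h4
    linarith
  rw [pow_succ] at h1
  nlinarith

/-! ## The theorem -/

theorem gp_grid (h1 : S_gshift) (h2 : S_gharris) (h3 : S_gmaxS) :
    Pool.Agent.H174.GP.S_grid := by
  intro ε hε hε1
  obtain ⟨h, hh⟩ : ∃ h : ℝ, h = ε ^ 3 / 12288 := ⟨_, rfl⟩
  have hpos : 0 < h := by rw [hh]; positivity
  have hle : h ≤ 1 := by
    rw [hh, div_le_one (by norm_num)]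
    have : ε ^ 3 ≤ 1 := pow_le_one₀ hε.le hε1
    linarith
  obtain ⟨i0, hi0⟩ := pow_unbounded_of_one_lt (1 / h) (by linarith : 1 < 1 + h)
  obtain ⟨n0, hn0⟩ := pow_unbounded_of_one_lt (Real.exp 1) (by linarith : 1 < 1 + h)
  refine ⟨h, hpos, hle, i0, n0, ?_⟩
  intro i1 N hi1 hN hn
  have hMpos : (0 : ℝ) < Wg h N := by exact_mod_cast gd_Wg_pos hpos N
  -- the logarithm of the last grid point
  have hlog1 : (N : ℝ) * Real.log (1 + h) ≤ Real.log (Wg h N) := by
    rw [← Real.log_pow]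
    exact Real.log_le_log (by positivity) (gd_Wg_ge h N)
  have hlog2 : 1 ≤ Real.log (Wg h N) := by
    rw [Real.le_log_iff_exp_le hMpos]
    refine hn0.le.trans ((pow_le_pow_right₀ (by linarith) hn).trans (gd_Wg_ge h N))
  have hlogh : h / 2 ≤ Real.log (1 + h) := by
    have h4 : 1 - (1 + h)⁻¹ ≤ Real.log (1 + h) := Real.one_sub_inv_le_log_of_pos (by linarith)
    have h5 : h / 2 ≤ 1 - (1 + h)⁻¹ := by
      rw [le_sub_iff_add_le, ← le_sub_iff_add_le', inv_eq_one_div, div_le_iff₀ (by linarith)]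
      nlinarith
    linarith
  -- the probability of a drop
  have hp : Real.exp (-(ε / 2 * Real.log (1 + h))) ≤
      1 - 4 * Real.exp (-((ε / 2) ^ 2 / (96 * h ^ 2))) := by
    have h4 : Real.exp (-(ε / 2 * Real.log (1 + h))) ≤ Real.exp (-(ε * h / 4)) := by
      apply Real.exp_le_exp.2
      nlinarith
    have h5 : Real.exp (-(ε * h / 4)) ≤ 1 - ε * h / 8 := by
      have hx0 : 0 ≤ ε * h / 4 := by positivity
      have hx1 : ε * h / 4 ≤ 1 := by nlinarith
      have h6 : Real.exp (-(ε * h / 4)) ≤ 1 / (1 + ε * h / 4) := by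
        rw [Real.exp_neg, one_div]
        apply inv_anti₀ (by positivity)
        have := Real.add_one_le_exp (ε * h / 4)
        linarith
      refine h6.trans ?_
      rw [div_le_iff₀ (by positivity)]
      nlinarith
    have h7 : Real.exp (-((ε / 2) ^ 2 / (96 * h ^ 2))) ≤ ε * h / 32 := by
      have hy : 0 < (ε / 2) ^ 2 / (96 * h ^ 2) := by positivity
      have h8 : Real.exp (-((ε / 2) ^ 2 / (96 * h ^ 2))) ≤ 1 / ((ε / 2) ^ 2 / (96 * h ^ 2)) := by
        rw [Real.exp_neg, one_div]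
        apply inv_anti₀ hy
        have := Real.add_one_le_exp ((ε / 2) ^ 2 / (96 * h ^ 2))
        linarith
      refine h8.trans ?_
      rw [one_div_div, div_le_iff₀ (by positivity)]
      have h9 : ε ^ 3 = 12288 * h := by
        rw [hh]
        ring
      nlinarith [mul_pos hpos hpos]
    linarith
  have hp0 : 0 ≤ Real.exp (-(ε / 2 * Real.log (1 + h))) := (Real.exp_pos _).le
  -- the two steps
  have hs1 := gd_shift h1 (δ := ε / 2) (W := Wg h) (i1 := i1) (N := N) (M := Wg h N) hε hε1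
    (by positivity) (fun i hi => ⟨gd_Wg_pos hpos i, gd_Wg_mono hpos (Finset.mem_Icc.1 hi).2⟩)
  have hs2 := gd_harris h2 (δ := ε / 2) (p := Real.exp (-(ε / 2 * Real.log (1 + h))))
    (by positivity) hp0 (gd_Wg_mono hpos) hN (by
      intro i hi
      rw [Finset.mem_Ico] at hi
      refine hp.trans (gdE_prob h3 (by positivity) hpos hle (gd_Wg_pos hpos i)
        (gd_Wg_pos hpos (i + 1)) (gd_Wg_step hpos ?_))
      exact hi0.le.trans (pow_le_pow_right₀ (by linarith) (hi1.trans hi.1)))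
  -- combination
  have hA : 0 ≤ (GA.real {z | ∀ i ∈ Finset.Icc i1 N, 0 ≤ Iw z (Wg h i)}) ^ (1 + ε) :=
    Real.rpow_nonneg measureReal_nonneg _
  have hpow : Real.exp (-(ε / 2 * Real.log (Wg h N))) ≤
      Real.exp (-(ε / 2 * Real.log (1 + h))) ^ (N - i1) := by
    rw [← Real.exp_nat_mul]
    apply Real.exp_le_exp.2
    have h10 : ((N - i1 : ℕ) : ℝ) ≤ N := by exact_mod_cast Nat.sub_le N i1
    have h11 : 0 ≤ Real.log (1 + h) := by linarith
    have h12 : ((N - i1 : ℕ) : ℝ) * Real.log (1 + h) ≤ Real.log (Wg h N) :=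
      (mul_le_mul_of_nonneg_right h10 h11).trans hlog1
    nlinarith
  have hMe : (Wg h N : ℝ) ^ ε = Real.exp (ε * Real.log (Wg h N)) := by
    rw [Real.rpow_def_of_pos hMpos, mul_comm]
  rw [hMe]
  refine le_trans ?_ (mul_le_mul_of_nonneg_left hs2 (Real.exp_pos _).le)
  refine le_trans ?_ (mul_le_mul_of_nonneg_left
    (mul_le_mul hs1 hpow (Real.exp_pos _).le measureReal_nonneg) (Real.exp_pos _).le)
  have hfin : 1 ≤ Real.exp (ε * Real.log (Wg h N)) *
      (Real.exp (-(1 / ε * ((ε / 2) ^ 2 * (1 + Real.log (Wg h N))))) *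
        Real.exp (-(ε / 2 * Real.log (Wg h N)))) := by
    rw [← Real.exp_add, ← Real.exp_add]
    apply Real.one_le_exp
    have h13 : 1 / ε * ((ε / 2) ^ 2 * (1 + Real.log (Wg h N))) =
        ε / 4 * (1 + Real.log (Wg h N)) := by
      field_simp
      ring
    rw [h13]
    nlinarith
  calc (GA.real {z | ∀ i ∈ Finset.Icc i1 N, 0 ≤ Iw z (Wg h i)}) ^ (1 + ε)
      = (GA.real {z | ∀ i ∈ Finset.Icc i1 N, 0 ≤ Iw z (Wg h i)}) ^ (1 + ε) * 1 := (mul_one _).symm
    _ ≤ _ := mul_le_mul_of_nonneg_left hfin hA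
    _ = _ := by ring

end Pool.Agent.H675.GP174
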